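import Pool.Agent.Helper21.EM.Stmts

/-!
# EM, row LNC: an isolated type in a block which is not real (helper65)
-/

set_option autoImplicit false

open Matrix MT

namespace EM
namespace LN

variable {K : Type} [Field K] {n : ℕ}

theorem adj_mul {ψ : Matrix (Fin n) (Fin n) K} (hψ : ψ.det ≠ 0)
    (X Y : Matrix (Fin n) (Fin n) K) : adj ψ (X * Y) = adj ψ Y * adj ψ X := by
  have h1 : ψ * ψ⁻¹ = 1 := Matrix.mul_nonsing_inv _ (isUnit_iff_ne_zero.mpr hψ)
  unfold adj
  rw [Matrix.transpose_mul]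
  calc ψ⁻¹ * (Y.transpose * X.transpose) * ψ
      = ψ⁻¹ * Y.transpose * 1 * X.transpose * ψ := by
        rw [Matrix.mul_one]; simp only [Matrix.mul_assoc]
    _ = ψ⁻¹ * Y.transpose * (ψ * ψ⁻¹) * X.transpose * ψ := by rw [h1]
    _ = _ := by simp only [Matrix.mul_assoc]

theorem adj_add (ψ X Y : Matrix (Fin n) (Fin n) K) : adj ψ (X + Y) = adj ψ X + adj ψ Y := by
  unfold adj
  rw [Matrix.transpose_add, Matrix.mul_add, Matrix.add_mul]

theorem adj_sub (ψ X Y : Matrix (Fin n) (Fin n) K) : adj ψ (X - Y) = adj ψ X - adj ψ Y := by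
  unfold adj
  rw [Matrix.transpose_sub, Matrix.mul_sub, Matrix.sub_mul]

theorem adj_smul (ψ X : Matrix (Fin n) (Fin n) K) (c : K) : adj ψ (c • X) = c • adj ψ X := by
  unfold adj
  rw [Matrix.transpose_smul, Matrix.mul_smul, Matrix.smul_mul]

theorem adj_zero (ψ : Matrix (Fin n) (Fin n) K) : adj ψ 0 = 0 := by
  unfold adj
  rw [Matrix.transpose_zero, Matrix.mul_zero, Matrix.zero_mul]

theorem adj_skew {ψ : Matrix (Fin n) (Fin n) K} (hψ : ψ.det ≠ 0) {A : Matrix (Fin n) (Fin n) K}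
    (hA : A.transpose * ψ + ψ * A = 0) : adj ψ A = -A := by
  have h1 : ψ⁻¹ * ψ = 1 := Matrix.nonsing_inv_mul _ (isUnit_iff_ne_zero.mpr hψ)
  have h2 : A.transpose * ψ = -(ψ * A) := eq_neg_of_add_eq_zero_left hA
  unfold adj
  rw [Matrix.mul_assoc, h2, Matrix.mul_neg, ← Matrix.mul_assoc, h1, Matrix.one_mul]

/-- the matrices which live on `e` and whose antisymmetrisation is in `L` -/
def JJ (ψ : Matrix (Fin n) (Fin n) K) (L : Submodule K (Matrix (Fin n) (Fin n) K))
    (e : Matrix (Fin n) (Fin n) K) : Submodule K (Matrix (Fin n) (Fin n) K) where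
  carrier := {Y | e * Y * e = Y ∧ Y - adj ψ Y ∈ L}
  add_mem' := by
    rintro A B ⟨hA, hA'⟩ ⟨hB, hB'⟩
    refine ⟨by rw [Matrix.mul_add, Matrix.add_mul, hA, hB], ?_⟩
    rw [adj_add, add_sub_add_comm]
    exact L.add_mem hA' hB'
  zero_mem' := ⟨by rw [Matrix.mul_zero, Matrix.zero_mul], by
    rw [adj_zero, sub_zero]; exact L.zero_mem⟩
  smul_mem' := by
    rintro c A ⟨hA, hA'⟩
    refine ⟨by rw [Matrix.mul_smul, Matrix.smul_mul, hA], ?_⟩
    rw [adj_smul, ← smul_sub]
    exact L.smul_mem c hA'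

section core

variable {ψ : Matrix (Fin n) (Fin n) K} {L : Submodule K (Matrix (Fin n) (Fin n) K)}
  {e F : Matrix (Fin n) (Fin n) K}

theorem mem_JJ {Y : Matrix (Fin n) (Fin n) K} :
    Y ∈ JJ ψ L e ↔ e * Y * e = Y ∧ Y - adj ψ Y ∈ L := Iff.rfl

theorem left_of (he : e * e = e) {Y : Matrix (Fin n) (Fin n) K} (hY : e * Y * e = Y) :
    e * Y = Y := by
  rw [← hY]
  simp only [← Matrix.mul_assoc, he]

theorem right_of (he : e * e = e) {Y : Matrix (Fin n) (Fin n) K} (hY : e * Y * e = Y) :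
    Y * e = Y := by
  rw [← hY]
  simp only [Matrix.mul_assoc, he]

/-- products of matrices on `e` and adjoints of such matrices vanish -/
theorem mix (hψ : ψ.det ≠ 0) (h1 : e * adj ψ e = 0) (h2 : adj ψ e * e = 0)
    {Y Z : Matrix (Fin n) (Fin n) K} (hY : Y * e = Y) (hY' : e * Y = Y)
    (hZ : Z * e = Z) (hZ' : e * Z = Z) : Y * adj ψ Z = 0 ∧ adj ψ Z * Y = 0 := by
  constructor
  · have : adj ψ Z = adj ψ e * adj ψ Z := by rw [← adj_mul hψ, hZ]
    rw [this, ← hY, Matrix.mul_assoc, ← Matrix.mul_assoc e, h1, Matrix.zero_mul, Matrix.mul_zero]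
  · have : adj ψ Z = adj ψ Z * adj ψ e := by rw [← adj_mul hψ, hZ']
    rw [this, ← hY', Matrix.mul_assoc, ← Matrix.mul_assoc _ e, h2, Matrix.zero_mul,
      Matrix.mul_zero]

theorem brk_L (hψ : ψ.det ≠ 0) (hb : Brk L) (iso : ∀ A ∈ L, A.transpose * ψ + ψ * A = 0)
    (hc : ∀ A ∈ L, A * e = e * A) {A Y : Matrix (Fin n) (Fin n) K} (hA : A ∈ L)
    (he : e * e = e) (hY : Y ∈ JJ ψ L e) : A * Y - Y * A ∈ JJ ψ L e := by
  obtain ⟨h1, h2⟩ := hY
  have l1 := left_of he h1
  have r1 := right_of he h1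
  refine ⟨?_, ?_⟩
  · rw [Matrix.mul_sub, Matrix.sub_mul]
    congr 1
    · rw [← Matrix.mul_assoc, ← hc A hA, Matrix.mul_assoc, Matrix.mul_assoc, r1,
        l1]
    · rw [← Matrix.mul_assoc, l1, Matrix.mul_assoc, hc A hA, ← Matrix.mul_assoc, r1]
  · have := hb A hA _ h2
    have e1 : A * Y - Y * A - adj ψ (A * Y - Y * A) =
        A * (Y - adj ψ Y) - (Y - adj ψ Y) * A := by
      rw [adj_sub, adj_mul hψ, adj_mul hψ, adj_skew hψ (iso A hA), Matrix.mul_neg, Matrix.neg_mul,
        Matrix.mul_sub, Matrix.sub_mul]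
      abel
    rw [e1]; exact this

theorem brk_J (hψ : ψ.det ≠ 0) (hb : Brk L) (he : e * e = e) (h1 : e * adj ψ e = 0)
    (h2 : adj ψ e * e = 0) {Y Z : Matrix (Fin n) (Fin n) K} (hY : Y ∈ JJ ψ L e)
    (hZ : Z ∈ JJ ψ L e) : Y * Z - Z * Y ∈ JJ ψ L e := by
  obtain ⟨y1, y2⟩ := hY
  obtain ⟨z1, z2⟩ := hZ
  have yl := left_of he y1
  have yr := right_of he y1
  have zl := left_of he z1
  have zr := right_of he z1
  refine ⟨?_, ?_⟩
  · rw [Matrix.mul_sub, Matrix.sub_mul, ← Matrix.mul_assoc, ← Matrix.mul_assoc, yl, zl,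
      Matrix.mul_assoc, Matrix.mul_assoc, yr, zr]
  · have e1 : Y * Z - Z * Y - adj ψ (Y * Z - Z * Y) =
        (Y - adj ψ Y) * (Z - adj ψ Z) - (Z - adj ψ Z) * (Y - adj ψ Y) := by
      have m1 := mix hψ h1 h2 yr yl zr zl
      have m2 := mix hψ h1 h2 zr zl yr yl
      rw [adj_sub, adj_mul hψ, adj_mul hψ]
      simp only [Matrix.mul_sub, Matrix.sub_mul, m1.1, m1.2, m2.1, m2.2]
      abel
    rw [e1]; exact hb _ y2 _ z2

/-- brackets with `F` -/
theorem brk_F (hψ : ψ.det ≠ 0) (he : e * e = e) (h1 : e * adj ψ e = 0)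
    (h2 : adj ψ e * e = 0) (hF : F * e = F) (hF' : e * F = F)
    (nrm : ∀ A ∈ L, (F - adj ψ F) * A - A * (F - adj ψ F) ∈ L)
    {Y : Matrix (Fin n) (Fin n) K} (hY : Y ∈ JJ ψ L e) : F * Y - Y * F ∈ JJ ψ L e := by
  obtain ⟨y1, y2⟩ := hY
  have yl := left_of he y1
  have yr := right_of he y1
  refine ⟨?_, ?_⟩
  · rw [Matrix.mul_sub, Matrix.sub_mul, ← Matrix.mul_assoc, ← Matrix.mul_assoc, yl, hF',
      Matrix.mul_assoc, Matrix.mul_assoc, yr, hF]
  · have m1 := mix hψ h1 h2 yr yl hF hF'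
    have m2 := mix hψ h1 h2 hF hF' yr yl
    have e1 : F * Y - Y * F - adj ψ (F * Y - Y * F) =
        (F - adj ψ F) * (Y - adj ψ Y) - (Y - adj ψ Y) * (F - adj ψ F) := by
      rw [adj_sub, adj_mul hψ, adj_mul hψ]
      simp only [Matrix.mul_sub, Matrix.sub_mul, m1.1, m1.2, m2.1, m2.2]
      abel
    rw [e1]; exact nrm _ y2

theorem brk_FL (hψ : ψ.det ≠ 0) (iso : ∀ A ∈ L, A.transpose * ψ + ψ * A = 0)
    (hc : ∀ A ∈ L, A * e = e * A) (hF : F * e = F) (hF' : e * F = F)
    (nrm : ∀ A ∈ L, (F - adj ψ F) * A - A * (F - adj ψ F) ∈ L)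
    {A : Matrix (Fin n) (Fin n) K} (hA : A ∈ L) : F * A - A * F ∈ JJ ψ L e := by
  refine ⟨?_, ?_⟩
  · rw [Matrix.mul_sub, Matrix.sub_mul]
    congr 1
    · rw [← Matrix.mul_assoc, hF', Matrix.mul_assoc, hc A hA, ← Matrix.mul_assoc, hF]
    · rw [← Matrix.mul_assoc, ← hc A hA, Matrix.mul_assoc, Matrix.mul_assoc, hF,
        hF']
  · have e1 : F * A - A * F - adj ψ (F * A - A * F) =
        (F - adj ψ F) * A - A * (F - adj ψ F) := by
      rw [adj_sub, adj_mul hψ, adj_mul hψ, adj_skew hψ (iso A hA)]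
      simp only [Matrix.mul_sub, Matrix.sub_mul, Matrix.neg_mul, Matrix.mul_neg]
      abel
    rw [e1]; exact nrm _ hA

/-- the column part and the row part -/
theorem parts [CharZero K] (hψ : ψ.det ≠ 0) (he : e * e = e) (h1 : e * adj ψ e = 0)
    (h2 : adj ψ e * e = 0) (hFF : F * F = F) (hF : F * e = F) (hF' : e * F = F)
    (nrm : ∀ A ∈ L, (F - adj ψ F) * A - A * (F - adj ψ F) ∈ L)
    {Y : Matrix (Fin n) (Fin n) K} (hY : F * Y - Y * F ∈ JJ ψ L e) :
    (1 - F) * Y * F ∈ JJ ψ L e ∧ F * Y * (1 - F) ∈ JJ ψ L e := by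
  have h3 := brk_F hψ he h1 h2 hF hF' nrm hY
  have e1 : F * (F * Y - Y * F) - (F * Y - Y * F) * F =
      F * Y - (2 : K) • (F * Y * F) + Y * F := by
    rw [Matrix.mul_sub, Matrix.sub_mul, ← Matrix.mul_assoc, hFF, Matrix.mul_assoc Y F F, hFF,
      ← Matrix.mul_assoc, two_smul]
    abel
  rw [e1] at h3
  constructor
  · have : (1 - F) * Y * F = (2⁻¹ : K) • ((F * Y - (2 : K) • (F * Y * F) + Y * F) -
        (F * Y - Y * F)) := by
      rw [Matrix.sub_mul, Matrix.one_mul, Matrix.sub_mul]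
      have : (F * Y - (2 : K) • (F * Y * F) + Y * F) - (F * Y - Y * F) =
          (2 : K) • (Y * F - F * Y * F) := by
        rw [smul_sub, two_smul K (Y * F)]; abel
      rw [this, smul_smul, inv_mul_cancel₀ (two_ne_zero), one_smul]
    rw [this]
    exact (JJ ψ L e).smul_mem _ ((JJ ψ L e).sub_mem h3 hY)
  · have : F * Y * (1 - F) = (2⁻¹ : K) • ((F * Y - (2 : K) • (F * Y * F) + Y * F) +
        (F * Y - Y * F)) := by
      rw [Matrix.mul_sub, Matrix.mul_one]
      have : (F * Y - (2 : K) • (F * Y * F) + Y * F) + (F * Y - Y * F) =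
          (2 : K) • (F * Y - F * Y * F) := by
        rw [smul_sub, two_smul K (F * Y)]; abel
      rw [this, smul_smul, inv_mul_cancel₀ (two_ne_zero), one_smul]
    rw [this]
    exact (JJ ψ L e).smul_mem _ ((JJ ψ L e).add_mem h3 hY)

theorem FZF (x φ : Fin n → K) (Z : Matrix (Fin n) (Fin n) K) :
    vecMulVec x φ * Z * vecMulVec x φ = (φ ⬝ᵥ Z.mulVec x) • vecMulVec x φ := by
  rw [Matrix.vecMulVec_mul, Matrix.vecMulVec_mul_vecMulVec, ← Matrix.dotProduct_mulVec]
  ext i j
  simp only [Matrix.vecMulVec_apply, Matrix.smul_apply, smul_eq_mul, Pi.smul_apply]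
  ring

theorem core [CharZero K] (hψ : ψ.det ≠ 0) (hb : Brk L)
    (iso : ∀ A ∈ L, A.transpose * ψ + ψ * A = 0)
    (hc : ∀ A ∈ L, A * e = e * A) (he : e * e = e) (h1 : e * adj ψ e = 0)
    (h2 : adj ψ e * e = 0) (x φ : Fin n → K) (hφx : φ ⬝ᵥ x = 1) (hFx : F = vecMulVec x φ)
    (hF : F * e = F) (hF' : e * F = F)
    (nrm : ∀ A ∈ L, (F - adj ψ F) * A - A * (F - adj ψ F) ∈ L)
    (irr : ∀ W : Submodule K (Fin n → K), (∀ A ∈ L, ∀ v ∈ W, A.mulVec v ∈ W) →
      (∀ v ∈ W, e.mulVec v = v) → W = ⊥ ∨ ∀ v, e.mulVec v = v → v ∈ W) :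
    ∀ Y : Matrix (Fin n) (Fin n) K, e * Y * e = Y → Y.trace = 0 → Y - adj ψ Y ∈ L := by
  have hFF : F * F = F := by
    rw [hFx, Matrix.vecMulVec_mul_vecMulVec, hφx]
    ext i j
    simp [Matrix.vecMulVec_apply]
  have hG : (1 - F) * F = 0 := by rw [Matrix.sub_mul, Matrix.one_mul, hFF, sub_self]
  have hG' : F * (1 - F) = 0 := by rw [Matrix.mul_sub, Matrix.mul_one, hFF, sub_self]
  have hGG : (1 - F) * (1 - F) = 1 - F := by
    rw [Matrix.mul_sub, Matrix.mul_one, hG, sub_zero]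
  have heG : e * (1 - F) = (1 - F) * e := by
    rw [Matrix.mul_sub, Matrix.sub_mul, Matrix.one_mul, Matrix.mul_one, hF, hF']
  have hFxx : F.mulVec x = x := by
    rw [hFx, Matrix.vecMulVec_mulVec, hφx]
    simp
  have hex : e.mulVec x = x := by
    conv_lhs => rw [← hFxx]
    rw [Matrix.mulVec_mulVec, hF', hFxx]
  have hφF : φ ᵥ* F = φ := by
    rw [hFx, Matrix.vecMul_vecMulVec, hφx, one_smul]
  have hφe : φ ᵥ* e = φ := by
    conv_lhs => rw [← hφF]
    rw [Matrix.vecMul_vecMul, hF, hφF]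
  have hFZF : ∀ Z : Matrix (Fin n) (Fin n) K, F * Z * F = (φ ⬝ᵥ Z.mulVec x) • F := by
    intro Z
    rw [hFx]; exact FZF x φ Z
  have PL : ∀ A ∈ L, (1 - F) * A * F ∈ JJ ψ L e ∧ F * A * (1 - F) ∈ JJ ψ L e := fun A hA =>
    parts hψ he h1 h2 hFF hF hF' nrm (brk_FL hψ iso hc hF hF' nrm hA)
  have PJ : ∀ Y ∈ JJ ψ L e, (1 - F) * Y * F ∈ JJ ψ L e ∧ F * Y * (1 - F) ∈ JJ ψ L e :=
    fun Y hY => parts hψ he h1 h2 hFF hF hF' nrm (brk_F hψ he h1 h2 hF hF' nrm hY)
  have BL : ∀ A ∈ L, ∀ Y ∈ JJ ψ L e, A * Y - Y * A ∈ JJ ψ L e := fun A hA Y hY =>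
    brk_L hψ hb iso hc hA he hY
  have x0 : x ≠ 0 := by
    rintro rfl
    simp at hφx
  -- columns
  have col : ∀ v : Fin n → K, e.mulVec v = v → (1 - F) * vecMulVec v φ ∈ JJ ψ L e := by
    let W : Submodule K (Fin n → K) :=
      { carrier := {v | e.mulVec v = v ∧ (1 - F) * vecMulVec v φ ∈ JJ ψ L e}
        add_mem' := by
          rintro v v' ⟨a1, a2⟩ ⟨b1, b2⟩
          refine ⟨by rw [Matrix.mulVec_add, a1, b1], ?_⟩
          rw [Matrix.add_vecMulVec, Matrix.mul_add]
          exact (JJ ψ L e).add_mem a2 b2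
        zero_mem' := ⟨by rw [Matrix.mulVec_zero], by
          rw [Matrix.zero_vecMulVec, Matrix.mul_zero]; exact (JJ ψ L e).zero_mem⟩
        smul_mem' := by
          rintro c v ⟨a1, a2⟩
          refine ⟨by rw [Matrix.mulVec_smul, a1], ?_⟩
          rw [Matrix.smul_vecMulVec, Matrix.mul_smul]
          exact (JJ ψ L e).smul_mem _ a2 }
    have hst : ∀ A ∈ L, ∀ v ∈ W, A.mulVec v ∈ W := by
      rintro A hA v ⟨a1, a2⟩
      refine ⟨by rw [Matrix.mulVec_mulVec, ← hc A hA, ← Matrix.mulVec_mulVec, a1], ?_⟩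
      set M := vecMulVec v φ with hM
      have e0 : vecMulVec (A.mulVec v) φ = A * M := by rw [hM, Matrix.mul_vecMulVec]
      have e1 : M * F = M := by
        rw [hM, Matrix.vecMulVec_mul, hφF]
      have e2 : F * M = (φ ⬝ᵥ v) • F := by
        rw [hM, hFx, Matrix.vecMulVec_mul_vecMulVec]
        ext i j
        simp only [Matrix.vecMulVec_apply, Matrix.smul_apply, smul_eq_mul, Pi.smul_apply]
        ring
      have e3 : (1 - F) * (A * M) = ((1 - F) * (A * ((1 - F) * M) - (1 - F) * M * A) * F +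
          (φ ⬝ᵥ A.mulVec x) • ((1 - F) * M)) + (φ ⬝ᵥ v) • ((1 - F) * A * F) := by
        have f1 : (1 - F) * M * A * F = (φ ⬝ᵥ A.mulVec x) • ((1 - F) * M) := by
          calc (1 - F) * M * A * F = (1 - F) * (M * F) * A * F := by rw [e1]
            _ = (1 - F) * M * (F * A * F) := by simp only [Matrix.mul_assoc]
            _ = (φ ⬝ᵥ A.mulVec x) • ((1 - F) * (M * F)) := by
              rw [hFZF, Matrix.mul_smul, Matrix.mul_assoc]
            _ = _ := by rw [e1]
        have f2 : (1 - F) * (A * ((1 - F) * M)) * F = (1 - F) * A * ((1 - F) * M) := by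
          calc (1 - F) * (A * ((1 - F) * M)) * F = (1 - F) * A * ((1 - F) * (M * F)) := by
                simp only [Matrix.mul_assoc]
            _ = _ := by rw [e1]
        have f3 : (1 - F) * ((1 - F) * M * A) * F = (1 - F) * M * A * F := by
          calc (1 - F) * ((1 - F) * M * A) * F = ((1 - F) * (1 - F)) * M * A * F := by
                simp only [Matrix.mul_assoc]
            _ = _ := by rw [hGG]
        have f4 : (φ ⬝ᵥ v) • ((1 - F) * A * F) = (1 - F) * A * (F * M) := by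
          rw [e2, Matrix.mul_smul]
        rw [Matrix.mul_sub (1 - F) (A * ((1 - F) * M)), Matrix.sub_mul ((1 - F) * (A * ((1 - F) * M))),
          f2, f3, f1, f4, sub_add_cancel]
        rw [← Matrix.mul_add, ← Matrix.add_mul, sub_add_cancel, Matrix.one_mul, Matrix.mul_assoc]
      rw [e0, e3]
      exact (JJ ψ L e).add_mem ((JJ ψ L e).add_mem (PJ _ (BL A hA _ a2)).1
        ((JJ ψ L e).smul_mem _ a2)) ((JJ ψ L e).smul_mem _ (PL A hA).1)
    have hxW : x ∈ W := ⟨hex, by
      rw [← hFx, hG]; exact (JJ ψ L e).zero_mem⟩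
    rcases irr W hst (fun v hv => hv.1) with h | h
    · exact absurd ((Submodule.mem_bot K).mp (h ▸ hxW)) x0
    · exact fun v hv => (h v hv).2
  -- rows
  have row : ∀ ρ : Fin n → K, vecMulVec x (ρ ᵥ* e) * (1 - F) ∈ JJ ψ L e := by
    let R : Submodule K (Fin n → K) :=
      { carrier := {ρ | vecMulVec x (ρ ᵥ* e) * (1 - F) ∈ JJ ψ L e}
        add_mem' := by
          intro v v' a b
          show vecMulVec x ((v + v') ᵥ* e) * (1 - F) ∈ JJ ψ L e
          rw [Matrix.add_vecMul, Matrix.vecMulVec_add, Matrix.add_mul]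
          exact (JJ ψ L e).add_mem a b
        zero_mem' := by
          show vecMulVec x ((0 : Fin n → K) ᵥ* e) * (1 - F) ∈ JJ ψ L e
          rw [Matrix.zero_vecMul, Matrix.vecMulVec_zero, Matrix.zero_mul]
          exact (JJ ψ L e).zero_mem
        smul_mem' := by
          intro c v a
          show vecMulVec x ((c • v) ᵥ* e) * (1 - F) ∈ JJ ψ L e
          rw [Matrix.smul_vecMul, Matrix.vecMulVec_smul, Matrix.smul_mul]
          exact (JJ ψ L e).smul_mem _ a }
    have hR : ∀ ρ, ρ ∈ R ↔ vecMulVec x (ρ ᵥ* e) * (1 - F) ∈ JJ ψ L e := fun _ => Iff.rfl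
    have hst : ∀ A ∈ L, ∀ ρ ∈ R, ρ ᵥ* A ∈ R := by
      intro A hA ρ hρ
      rw [hR] at hρ ⊢
      set N := vecMulVec x (ρ ᵥ* e) with hN
      have e0 : vecMulVec x ((ρ ᵥ* A) ᵥ* e) = N * A := by
        rw [hN, Matrix.vecMulVec_mul, Matrix.vecMul_vecMul, Matrix.vecMul_vecMul, hc A hA]
      have e1 : F * N = N := by
        rw [hN, Matrix.mul_vecMulVec, hFxx]
      have e2 : N * F = ((ρ ᵥ* e) ⬝ᵥ x) • F := by
        rw [hN, hFx, Matrix.vecMulVec_mul_vecMulVec]
        ext i j
        simp only [Matrix.vecMulVec_apply, Matrix.smul_apply, smul_eq_mul, Pi.smul_apply]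
        ring
      have e3 : N * A * (1 - F) = ((φ ⬝ᵥ A.mulVec x) • (N * (1 - F)) -
          F * (A * (N * (1 - F)) - N * (1 - F) * A) * (1 - F)) +
          ((ρ ᵥ* e) ⬝ᵥ x) • (F * A * (1 - F)) := by
        have f1 : F * (A * (N * (1 - F))) * (1 - F) = (φ ⬝ᵥ A.mulVec x) • (N * (1 - F)) := by
          calc F * (A * (N * (1 - F))) * (1 - F) = F * A * (N * ((1 - F) * (1 - F))) := by
                simp only [Matrix.mul_assoc]
            _ = F * A * ((F * N) * (1 - F)) := by rw [hGG, e1]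
            _ = (F * A * F) * N * (1 - F) := by simp only [Matrix.mul_assoc]
            _ = (φ ⬝ᵥ A.mulVec x) • ((F * N) * (1 - F)) := by
              rw [hFZF, Matrix.smul_mul, Matrix.smul_mul]
            _ = _ := by rw [e1]
        have f2 : F * (N * (1 - F) * A) * (1 - F) = N * (1 - F) * A * (1 - F) := by
          calc F * (N * (1 - F) * A) * (1 - F) = (F * N) * (1 - F) * A * (1 - F) := by
                simp only [Matrix.mul_assoc]
            _ = _ := by rw [e1]
        have f3 : ((ρ ᵥ* e) ⬝ᵥ x) • (F * A * (1 - F)) = N * F * A * (1 - F) := by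
          rw [e2, Matrix.smul_mul, Matrix.smul_mul]
        rw [Matrix.mul_sub F (A * (N * (1 - F))), Matrix.sub_mul (F * (A * (N * (1 - F)))),
          f1, f2, f3, sub_sub_cancel]
        rw [← Matrix.add_mul, ← Matrix.add_mul, ← Matrix.mul_add, sub_add_cancel, Matrix.mul_one]
      rw [e0, e3]
      exact (JJ ψ L e).add_mem ((JJ ψ L e).sub_mem ((JJ ψ L e).smul_mem _ hρ)
        (PJ _ (BL A hA _ hρ)).2) ((JJ ψ L e).smul_mem _ (PL A hA).2)
    let V : Submodule K (Fin n → K) :=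
      { carrier := {v | ∀ ρ ∈ R, ρ ⬝ᵥ v = 0}
        add_mem' := fun {v v'} a b ρ hρ => by rw [dotProduct_add, a ρ hρ, b ρ hρ, add_zero]
        zero_mem' := fun ρ _ => by rw [dotProduct_zero]
        smul_mem' := fun c v a ρ hρ => by rw [dotProduct_smul, a ρ hρ, smul_zero] }
    have hV : ∀ v, v ∈ V ↔ ∀ ρ ∈ R, ρ ⬝ᵥ v = 0 := fun _ => Iff.rfl
    have hVst : ∀ A ∈ L, ∀ v ∈ V, A.mulVec v ∈ V := by
      intro A hA v hv
      rw [hV] at hv ⊢
      intro ρ hρ
      rw [Matrix.dotProduct_mulVec]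
      exact hv _ (hst A hA ρ hρ)
    have hVe : ∀ v ∈ V, e.mulVec v = v := by
      intro v hv
      rw [hV] at hv
      have : ∀ ρ : Fin n → K, ρ ⬝ᵥ (v - e.mulVec v) = 0 := by
        intro ρ
        have hρ : ρ - ρ ᵥ* e ∈ R := by
          rw [hR, Matrix.sub_vecMul, Matrix.vecMul_vecMul, he, sub_self, Matrix.vecMulVec_zero,
            Matrix.zero_mul]
          exact (JJ ψ L e).zero_mem
        have := hv _ hρ
        rw [sub_dotProduct] at this
        rw [dotProduct_sub, Matrix.dotProduct_mulVec]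
        exact this
      have h3 : v - e.mulVec v = 0 := by
        funext j
        have := this (Pi.single j 1)
        rwa [single_dotProduct, one_mul] at this
      exact (sub_eq_zero.mp h3).symm
    have hφR : φ ∈ R := by
      rw [hR, hφe, ← hFx, hG']
      exact (JJ ψ L e).zero_mem
    have hVbot : V = ⊥ := by
      rcases irr V hVst hVe with h | h
      · exact h
      · have := h x hex
        rw [hV] at this
        have := this φ hφR
        rw [hφx] at this
        exact absurd this one_ne_zero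
    have hRtop : R = ⊤ := by
      by_contra hne
      obtain ⟨g, hg, hgR⟩ := Submodule.exists_le_ker_of_lt_top R (lt_top_iff_ne_top.mpr hne)
      apply hg
      have hv : (fun j => g (Pi.single j 1)) ∈ V := by
        rw [hV]
        intro ρ hρ
        have h3 : g ρ = 0 := LinearMap.mem_ker.mp (hgR hρ)
        rw [LinearMap.pi_apply_eq_sum_univ g ρ] at h3
        rw [← h3]
        refine Finset.sum_congr rfl fun j _ => ?_
        rw [smul_eq_mul]
        congr 1
        show g (Pi.single j 1) = g fun i => if j = i then 1 else 0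
        congr 1
        funext i
        simp only [Pi.single_apply, eq_comm]
      rw [hVbot, Submodule.mem_bot] at hv
      refine LinearMap.pi_ext' fun j => ?_
      ext
      exact congrFun hv j
    intro ρ
    have : ρ ∈ R := hRtop ▸ Submodule.mem_top
    exact this
  -- conclusion
  intro Y hY htr
  have yl := left_of he hY
  have yr := right_of he hY
  have hC : (1 - F) * Y * F ∈ JJ ψ L e := by
    have := col (Y.mulVec x) (by rw [Matrix.mulVec_mulVec, yl])
    rwa [← Matrix.mul_vecMulVec, ← hFx, ← Matrix.mul_assoc] at this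
  have hRr : F * Y * (1 - F) ∈ JJ ψ L e := by
    have := row (φ ᵥ* Y)
    rwa [Matrix.vecMul_vecMul, yr, ← Matrix.vecMulVec_mul, ← hFx] at this
  have hM : (1 - F) * Y * (1 - F) - ((1 - F) * Y * (1 - F)).trace • F ∈ JJ ψ L e := by
    have key : ∀ j : Fin n, ((1 - F) * Y * (1 - F)) * Matrix.single j j (1 : K) * (e * (1 - F)) -
        ((1 - F) * Y * (1 - F)) j j • F ∈ JJ ψ L e := by
      intro j
      have a1 := col ((Y * (1 - F)).mulVec (Pi.single j 1)) (by
        rw [Matrix.mulVec_mulVec, ← Matrix.mul_assoc, yl])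
      have a2 := row (Pi.single j 1)
      have a3 := brk_J hψ hb he h1 h2 a1 a2
      have e1 : (1 - F) * vecMulVec ((Y * (1 - F)).mulVec (Pi.single j 1)) φ =
          (1 - F) * Y * (1 - F) * vecMulVec (Pi.single j 1) φ := by
        rw [← Matrix.mul_vecMulVec]; simp only [Matrix.mul_assoc]
      have e2 : vecMulVec x (Pi.single j 1 ᵥ* e) * (1 - F) =
          vecMulVec x (Pi.single j 1) * (e * (1 - F)) := by
        rw [← Matrix.vecMulVec_mul, Matrix.mul_assoc]
      rw [e1, e2] at a3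
      have e3 : (1 - F) * Y * (1 - F) * vecMulVec (Pi.single j 1) φ *
          (vecMulVec x (Pi.single j 1) * (e * (1 - F))) =
          ((1 - F) * Y * (1 - F)) * Matrix.single j j (1 : K) * (e * (1 - F)) := by
        have : vecMulVec (Pi.single j 1) φ * vecMulVec x (Pi.single j 1) =
            Matrix.single j j (1 : K) := by
          rw [Matrix.vecMulVec_mul_vecMulVec, hφx, one_smul]
          ext a b
          rw [Matrix.vecMulVec_apply, Matrix.single_apply, Pi.single_apply, Pi.single_apply]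
          by_cases h3 : j = a <;> by_cases h4 : j = b <;> simp [h3, h4, eq_comm]
        calc _ = (1 - F) * Y * (1 - F) * (vecMulVec (Pi.single j 1) φ *
              vecMulVec x (Pi.single j 1)) * (e * (1 - F)) := by simp only [Matrix.mul_assoc]
          _ = _ := by rw [this]
      have e4 : vecMulVec x (Pi.single j 1) * (e * (1 - F)) *
          ((1 - F) * Y * (1 - F) * vecMulVec (Pi.single j 1) φ) =
          ((1 - F) * Y * (1 - F)) j j • F := by
        have : e * (1 - F) * ((1 - F) * Y * (1 - F)) = (1 - F) * Y * (1 - F) := by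
          rw [heG]
          calc (1 - F) * e * ((1 - F) * Y * (1 - F)) = (1 - F) * (e * (1 - F)) * Y * (1 - F) := by
                simp only [Matrix.mul_assoc]
            _ = (1 - F) * ((1 - F) * e) * Y * (1 - F) := by rw [heG]
            _ = ((1 - F) * (1 - F)) * (e * Y) * (1 - F) := by simp only [Matrix.mul_assoc]
            _ = _ := by rw [hGG, yl]
        calc _ = vecMulVec x (Pi.single j 1) * (e * (1 - F) * ((1 - F) * Y * (1 - F))) *
              vecMulVec (Pi.single j 1) φ := by simp only [Matrix.mul_assoc]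
          _ = vecMulVec x (Pi.single j 1) * ((1 - F) * Y * (1 - F)) *
              vecMulVec (Pi.single j 1) φ := by rw [this]
          _ = _ := by
            rw [Matrix.vecMulVec_mul, Matrix.vecMulVec_mul_vecMulVec, hFx]
            ext a b
            simp [Matrix.vecMulVec_apply]
            ring
      rw [e3, e4] at a3
      exact a3
    have hs := (JJ ψ L e).sum_mem (t := Finset.univ) (fun j _ => key j)
    have e5 : ∑ j : Fin n, (((1 - F) * Y * (1 - F)) * Matrix.single j j (1 : K) *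
        (e * (1 - F)) - ((1 - F) * Y * (1 - F)) j j • F) =
        (1 - F) * Y * (1 - F) - ((1 - F) * Y * (1 - F)).trace • F := by
      rw [Finset.sum_sub_distrib, ← Finset.sum_mul, ← Finset.mul_sum, ← Finset.sum_smul]
      congr 1
      have : ∑ j : Fin n, Matrix.single j j (1 : K) = 1 := by
        exact Matrix.sum_single_one
      rw [this, Matrix.mul_one]
      calc (1 - F) * Y * (1 - F) * (e * (1 - F)) = (1 - F) * Y * ((1 - F) * e) * (1 - F) := by
            simp only [Matrix.mul_assoc]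
        _ = (1 - F) * (Y * e) * ((1 - F) * (1 - F)) := by
            rw [← heG]; simp only [Matrix.mul_assoc]
        _ = _ := by rw [yr, hGG]
    rw [e5] at hs
    exact hs
  have htM : ((1 - F) * Y * (1 - F)).trace = -(φ ⬝ᵥ Y.mulVec x) := by
    have t1 : ((1 - F) * Y * (1 - F)).trace = Y.trace - (F * Y * F).trace := by
      rw [Matrix.trace_mul_comm, ← Matrix.mul_assoc, hGG, Matrix.sub_mul, Matrix.one_mul,
        Matrix.trace_sub]
      congr 1
      rw [Matrix.mul_assoc, Matrix.trace_mul_comm F (Y * F), Matrix.mul_assoc, hFF,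
        Matrix.trace_mul_comm]
    rw [t1, htr, hFZF, Matrix.trace_smul, hFx, Matrix.trace_vecMulVec, dotProduct_comm x φ, hφx]
    simp
  have hfin : Y = ((1 - F) * Y * F + F * Y * (1 - F)) +
      ((1 - F) * Y * (1 - F) - ((1 - F) * Y * (1 - F)).trace • F) := by
    rw [htM]
    have := hFZF Y
    rw [neg_smul, sub_neg_eq_add, ← this]
    simp only [Matrix.mul_sub, Matrix.sub_mul, Matrix.one_mul, Matrix.mul_one]
    abel
  have := (JJ ψ L e).add_mem ((JJ ψ L e).add_mem hC hRr) hM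
  rw [← hfin] at this
  exact this.2

end core

/-- irreducibility of a block, on the image of the projector -/
theorem irr_of {P : Matrix.GeneralLinearGroup (Fin n) K} {k : Fin n}
    {L : Submodule K (Matrix (Fin n) (Fin n) K)} {r : ℕ} {f : Fin r → Fin n}
    (hc : idm L P k ∈ Cmt L) (hUV : UU P f * VV P f = idm L P k)
    (hirr : LIrr (Cps L P f)) (W : Submodule K (Fin n → K))
    (hW : ∀ A ∈ L, ∀ v ∈ W, A.mulVec v ∈ W) (hWe : ∀ v ∈ W, (idm L P k).mulVec v = v) :
    W = ⊥ ∨ ∀ v, (idm L P k).mulVec v = v → v ∈ W := by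
  have h := hirr (W.comap (Matrix.mulVecLin (UU P f))) (by
    rintro _ ⟨A, hA, rfl⟩ v hv
    rw [Submodule.mem_comap, Matrix.mulVecLin_apply] at hv ⊢
    rw [Matrix.mulVec_mulVec, ← Matrix.mul_assoc, ← Matrix.mul_assoc, hUV, ← hc A hA,
      Matrix.mul_assoc, ← Matrix.mulVec_mulVec, ← Matrix.mulVec_mulVec, hWe _ hv]
    exact hW A hA _ hv)
  rcases h with h | h
  · left
    rw [eq_bot_iff]
    intro v hv
    have h1 : (VV P f).mulVec v ∈ W.comap (Matrix.mulVecLin (UU P f)) := by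
      rw [Submodule.mem_comap, Matrix.mulVecLin_apply, Matrix.mulVec_mulVec, hUV, hWe v hv]
      exact hv
    rw [h, Submodule.mem_bot] at h1
    rw [Submodule.mem_bot, ← hWe v hv, ← hUV, ← Matrix.mulVec_mulVec, h1, Matrix.mulVec_zero]
  · right
    intro v hv
    have h1 : (VV P f).mulVec v ∈ W.comap (Matrix.mulVecLin (UU P f)) := by
      rw [h]; exact Submodule.mem_top
    rw [Submodule.mem_comap, Matrix.mulVecLin_apply, Matrix.mulVec_mulVec, hUV, hv] at h1
    exact h1

/-- the columns of a block can be enumerated -/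
theorem exists_enm (L : Submodule K (Matrix (Fin n) (Fin n) K))
    (P : Matrix.GeneralLinearGroup (Fin n) K) (k : Fin n) :
    ∃ (r : ℕ) (f : Fin r → Fin n), Enm L P k r f := by
  classical
  let S : Finset (Fin n) := Finset.univ.filter fun j => Sam L P j P k
  refine ⟨S.card, fun i => (S.equivFin.symm i : Fin n), ?_, ?_⟩
  · intro a b hab
    exact S.equivFin.symm.injective (Subtype.ext hab)
  · intro j
    constructor
    · rintro ⟨i, rfl⟩
      exact (Finset.mem_filter.mp (S.equivFin.symm i).2).2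
    · intro hj
      refine ⟨S.equivFin ⟨j, Finset.mem_filter.mpr ⟨Finset.mem_univ _, hj⟩⟩, ?_⟩
      simp

end LN

open LN in
theorem st_LNC (hIDM : ST_IDM) (hPRM : ST_PRM) (hCOO : ST_COO) (hIRB : ST_IRB)
    (hNRM : ST_NRM) : ST_LNC := by
  intro K _ _ _ n w m h ψ L P k hS hFr hwm hI hk hcard hne
  obtain ⟨r, f, hEn⟩ := exists_enm L P k
  obtain ⟨i1, i2, i3, i4, i5, i6, -⟩ := hIDM K n w h L P hFr k
  obtain ⟨p1, p2, p3, -, -, p6⟩ := hPRM K n w h ψ L P hS hFr
  obtain ⟨-, c2, -, -, -⟩ := hCOO K n L P k r f hEn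
  obtain ⟨b1, -, -, -⟩ := hIRB K n w h ψ L P k r f hS hFr hEn
  obtain ⟨n1, n2, n3, n4⟩ := hNRM K n w m h ψ L P hS.unit hS.symm hS.brk hS.iso hFr.mem hwm hI
  have hψ := hS.unit
  -- the line
  set x : Fin n → K := (P : Matrix (Fin n) (Fin n) K).mulVec (Pi.single k 1) with hx
  set φ : Fin n → K := Pi.single k 1 ᵥ*
    ((P⁻¹ : Matrix.GeneralLinearGroup (Fin n) K) : Matrix (Fin n) (Fin n) K) with hφ
  have hPP : ((P⁻¹ : Matrix.GeneralLinearGroup (Fin n) K) : Matrix (Fin n) (Fin n) K) *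
      (P : Matrix (Fin n) (Fin n) K) = 1 := by
    rw [← Matrix.GeneralLinearGroup.coe_mul]; simp
  have hφx : φ ⬝ᵥ x = 1 := by
    rw [hφ, hx, Matrix.dotProduct_mulVec, Matrix.vecMul_vecMul, hPP, Matrix.vecMul_one]
    simp
  have hF0 : vecMulVec x φ = (P : Matrix (Fin n) (Fin n) K) *
      Matrix.diagonal (fun j => if j = k then (1 : K) else 0) *
      ((P⁻¹ : Matrix.GeneralLinearGroup (Fin n) K) : Matrix (Fin n) (Fin n) K) := by
    rw [hx, hφ, ← Matrix.mul_vecMulVec, ← Matrix.vecMulVec_mul, ← Matrix.mul_assoc]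
    congr 2
    ext a b
    rw [Matrix.vecMulVec_apply, Matrix.diagonal_apply, Pi.single_apply, Pi.single_apply]
    by_cases h3 : a = k <;> by_cases h4 : b = k <;> by_cases h5 : a = b <;>
      simp_all
  -- T
  set T := dg P (sgm w m h) with hT
  have hh : ∀ j, h j = m ↔ j = k := by
    intro j
    constructor
    · intro hj
      exact Finset.card_le_one.mp hcard.le j (Finset.mem_filter.mpr ⟨Finset.mem_univ _, hj⟩) k
        (Finset.mem_filter.mpr ⟨Finset.mem_univ _, hk⟩)
    · rintro rfl; exact hk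
  have conj : ∀ a b : Fin n → K, ((P : Matrix (Fin n) (Fin n) K) * Matrix.diagonal a *
      ((P⁻¹ : Matrix.GeneralLinearGroup (Fin n) K) : Matrix (Fin n) (Fin n) K)) *
      ((P : Matrix (Fin n) (Fin n) K) * Matrix.diagonal b *
      ((P⁻¹ : Matrix.GeneralLinearGroup (Fin n) K) : Matrix (Fin n) (Fin n) K)) =
      (P : Matrix (Fin n) (Fin n) K) * Matrix.diagonal (fun i => a i * b i) *
      ((P⁻¹ : Matrix.GeneralLinearGroup (Fin n) K) : Matrix (Fin n) (Fin n) K) := by
    intro a b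
    calc _ = (P : Matrix (Fin n) (Fin n) K) * Matrix.diagonal a *
        (((P⁻¹ : Matrix.GeneralLinearGroup (Fin n) K) : Matrix (Fin n) (Fin n) K) *
          (P : Matrix (Fin n) (Fin n) K)) * Matrix.diagonal b *
        ((P⁻¹ : Matrix.GeneralLinearGroup (Fin n) K) : Matrix (Fin n) (Fin n) K) := by
          simp only [Matrix.mul_assoc]
      _ = _ := by
        rw [hPP, Matrix.mul_one, Matrix.mul_assoc (P : Matrix (Fin n) (Fin n) K),
          Matrix.diagonal_mul_diagonal]
  have hTT : T * T + T = (2 : K) • vecMulVec x φ := by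
    rw [hT, hF0, dg, conj, ← Matrix.add_mul, ← Matrix.mul_add, Matrix.diagonal_add,
      ← Matrix.smul_mul, ← Matrix.mul_smul, ← Matrix.diagonal_smul]
    congr 3
    funext j
    simp only [sgm, Pi.smul_apply, smul_eq_mul]
    by_cases h3 : j = k
    · have h3' : h j = m := (hh j).mpr h3
      simp [h3, hk]
      norm_num
    · have h3' : h j ≠ m := fun hj => h3 ((hh j).mp hj)
      by_cases h4 : h j + m = w
      · simp [h3, h3', h4]
      · simp [h3, h3', h4]
  set F := vecMulVec x φ with hFdef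
  have hadjT : adj ψ T = -T := adj_skew hψ n2
  have h2 : (2 : K) ≠ 0 := two_ne_zero
  have hFT : F = (2⁻¹ : K) • (T * T + T) := by
    rw [hTT, smul_smul, inv_mul_cancel₀ h2, one_smul]
  have hFT' : adj ψ F = (2⁻¹ : K) • (T * T - T) := by
    rw [hFT, adj_smul, adj_add, adj_mul hψ, hadjT, neg_mul_neg, sub_eq_add_neg]
  have hTF : T = F - adj ψ F := by
    rw [hFT', hFT, ← smul_sub]
    have : T * T + T - (T * T - T) = (2 : K) • T := by rw [two_smul]; abel
    rw [this, smul_smul, inv_mul_cancel₀ h2, one_smul]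
  -- F and e
  have hev : ∀ j, (Sam L P j P k) = (Sam L P j P k) := fun _ => rfl
  have hkk : Sam L P k P k := fun _ _ => rfl
  have hFe : F * idm L P k = F := by
    rw [hF0, idm, conj]
    congr 3
    funext j
    by_cases h3 : j = k
    · subst h3; simp [hkk]
    · simp [h3]
  have heF : idm L P k * F = F := by
    rw [hF0, idm, conj]
    congr 3
    funext j
    by_cases h3 : j = k
    · subst h3; simp [hkk]
    · simp [h3]
  have q1 : idm L P k * adj ψ (idm L P k) = 0 :=
    p3 _ (p1 k) _ (p6 _ (p1 k)) (Ne.symm hne)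
  have q2 : adj ψ (idm L P k) * idm L P k = 0 :=
    p3 _ (p6 _ (p1 k)) _ (p1 k) hne
  exact LN.core hψ hS.brk hS.iso (fun A hA => i1 A hA) i2 q1 q2 x φ hφx rfl hFe heF
    (by rw [← hTF]; exact n1)
    (fun W hW hWe => irr_of i1 c2 b1 W hW hWe)

end EM
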